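import Mathlib

namespace Pool.Agent.Results.MP_c699aa_gt.Q1

open Set Metric MeasureTheory Filter Topology ENNReal

/-- Euclidean `n`-space. -/
abbrev E (n : ℕ) : Type := EuclideanSpace ℝ (Fin n)

variable {n : ℕ}

/-- Length of the section of `K` by the line through `x` in direction `u`. -/
noncomputable def len (u : E n) (K : Set (E n)) (x : E n) : ℝ≥0∞ := volume {t : ℝ | x + t • u ∈ K}

/-- Steiner symmetrization of `K` in the unit direction `u`. -/
def St (u : E n) (K : Set (E n)) : Set (E n) :=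
  {z | ∃ y ∈ K, ∃ t : ℝ, ENNReal.ofReal |t| ≤ len u K (y - inner ℝ u y • u) / 2 ∧
    z = (y - inner ℝ u y • u) + t • u}

/-- The successive symmetrizations. -/
def It (u : ℕ → E n) (K : Set (E n)) : ℕ → Set (E n)
  | 0 => K
  | i + 1 => St (u i) (It u K i)

lemma lshift (u : E n) (K) (x : E n) (s : ℝ) : len u K (x + s • u) = len u K x := by
  rw [len, len, ← measure_preimage_add volume s {t : ℝ | x + t • u ∈ K}]
  congr 1; ext t; simp [add_smul, add_assoc]

lemma lmeas (u : E n) {K : Set (E n)} (h : MeasurableSet K) : Measurable (len u K) :=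
  measurable_measure_prodMk_left (s := {p : E n × ℝ | p.1 + p.2 • u ∈ K}) (h.preimage (by fun_prop))

lemma fub {u : E n} (hu : ‖u‖ = 1) {K : Set (E n)} (h : MeasurableSet K) :
    volume K = ∫⁻ x in {x | inner ℝ u x ∈ Ico (0 : ℝ) 1}, len u K x := by
  have m : MeasurableSet {x : E n | inner ℝ u x ∈ Ico (0 : ℝ) 1} :=
    measurableSet_Ico.preimage (by fun_prop)
  have m1 : MeasurableSet {p : E n × ℝ | inner ℝ u p.1 ∈ Ico (0 : ℝ) 1 ∧ p.1 + p.2 • u ∈ K} :=
    (m.preimage measurable_fst).inter (h.preimage (f := fun p : E n × ℝ => p.1 + p.2 • u) (by fun_prop))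
  have m2 : MeasurableSet {p : E n × ℝ | inner ℝ u p.1 - p.2 ∈ Ico (0 : ℝ) 1 ∧ p.1 ∈ K} :=
    (measurableSet_Ico.preimage (by fun_prop)).inter (h.preimage measurable_fst)
  have a := (Measure.prod_apply (μ := volume) (ν := volume) m1).symm.trans (Measure.prod_apply_symm m1)
  have b := (Measure.prod_apply (μ := volume) (ν := volume) m2).symm.trans (Measure.prod_apply_symm m2)
  rw [← lintegral_indicator m, ← lintegral_indicator_one h]
  refine Eq.trans ?_ (b.trans (Eq.trans ?_ (a.symm.trans ?_))) <;> congr 1 <;> funext x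
  · by_cases hx : x ∈ K
    · have : Prod.mk x ⁻¹' {p : E n × ℝ | inner ℝ u p.1 - p.2 ∈ Ico (0 : ℝ) 1 ∧ p.1 ∈ K} =
          Ioc (inner ℝ u x - 1) (inner ℝ u x) := by
        ext t; simp [hx]; constructor <;> rintro ⟨a, b⟩ <;> constructor <;> linarith
      rw [this]; simp [hx]
    · simp [hx]
  · rw [← measure_preimage_add_right volume (x • u)]
    congr 1; ext y
    simp [inner_add_right, inner_smul_right, hu]
  · by_cases hx : inner ℝ u x ∈ Ico (0 : ℝ) 1
    · rw [indicator_of_mem (by exact hx), len]; congr 1; ext t; simp [-mem_Ico, hx]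
    · rw [indicator_of_notMem (by exact hx)]; simp [-mem_Ico, hx]

lemma step {u : E n} (hu : ‖u‖ = 1) {A K : Set (E n)} (h : MeasurableSet A) (s : A ⊆ K) :
    ∃ B, MeasurableSet B ∧ B ⊆ St u K ∧ volume B = volume A := by
  have m : MeasurableSet {x | ENNReal.ofReal |inner ℝ u x| < len u A x / 2} :=
    measurableSet_lt (by fun_prop) ((lmeas u h).div_const 2)
  refine ⟨_, m, fun x hx => ?_, ?_⟩
  · obtain ⟨t, ht⟩ := nonempty_of_measure_ne_zero (show len u A x ≠ 0 by
      intro e; simp [e] at hx)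
    have e : x + t • u - inner ℝ u (x + t • u) • u = x + (-inner ℝ u x) • u := by
      simp [inner_add_right, inner_smul_right, hu, add_smul, sub_eq_add_neg]
    refine ⟨_, s ht, inner ℝ u x, ?_, by rw [e]; simp⟩
    rw [e, lshift]
    exact hx.out.le.trans (ENNReal.div_le_div_right (show len u A x ≤ len u K x from measure_mono fun t h => s h) 2)
  · rw [fub hu m, fub hu h]
    congr 1; funext x
    rw [← lshift u _ x (-inner ℝ u x), len]
    have e (t : ℝ) : inner ℝ u (x + (-inner ℝ u x) • u + t • u) = t := by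
      simp [inner_add_right, inner_smul_right, hu]
    simp only [mem_setOf_eq, e, lshift]
    rcases eq_or_ne (len u A x) ⊤ with h | h
    · simp [h, ENNReal.top_div]
    · lift len u A x to NNReal using h with l
      have : {t : ℝ | ENNReal.ofReal |t| < l / 2} = Ioo (-(l / 2 : ℝ)) (l / 2) := by
        ext t
        rw [mem_setOf_eq, mem_Ioo, ← abs_lt, show (l / 2 : ℝ≥0∞) = ENNReal.ofReal (l / 2) by
          rw [ofReal_div_of_pos two_pos]; simp, ofReal_lt_ofReal_iff_of_nonneg (abs_nonneg t)]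
      rw [this]; simp

lemma inb {u : E n} (hu : ‖u‖ = 1) {K : Set (E n)} {r : ℝ} (h : K ⊆ closedBall 0 r) :
    St u K ⊆ closedBall 0 r := by
  rintro _ ⟨y, hy, t, ht, rfl⟩
  set x := y - inner ℝ u y • u with hx
  have py (s : ℝ) : ‖x + s • u‖ ^ 2 = ‖x‖ ^ 2 + s ^ 2 := by
    have : inner ℝ x u = 0 := by simp [hx, inner_sub_left, inner_smul_left, hu, real_inner_comm]
    rw [norm_add_sq_real, inner_smul_right, this, norm_smul, hu]; simp
  have r0 : 0 ≤ r := nonempty_closedBall.1 ⟨y, h hy⟩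
  have iff (s : ℝ) : x + s • u ∈ closedBall 0 r ↔ |s| ≤ √(r ^ 2 - ‖x‖ ^ 2) ∧ ‖x‖ ^ 2 ≤ r ^ 2 := by
    rw [mem_closedBall_zero_iff, ← sq_le_sq₀ (norm_nonneg _) r0, py]
    refine ⟨fun h => ⟨Real.abs_le_sqrt (by linarith), by nlinarith⟩, fun ⟨a, b⟩ => ?_⟩
    have := (Real.le_sqrt (abs_nonneg s) (by linarith)).1 a
    rw [sq_abs] at this; linarith
  refine (iff t).2 ⟨?_, ((iff (inner ℝ u y)).1 (by simpa [hx] using h hy)).2⟩
  have : len u K x ≤ volume (Icc (-√(r ^ 2 - ‖x‖ ^ 2)) √(r ^ 2 - ‖x‖ ^ 2)) :=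
    measure_mono fun s hs => abs_le.1 ((iff s).1 (h hs)).1
  have := ht.trans (ENNReal.div_le_div_right this 2)
  rw [Real.volume_Icc, show ∀ a, ENNReal.ofReal a / 2 = ENNReal.ofReal (a / 2) from fun a => by
    rw [ofReal_div_of_pos two_pos]; simp, ofReal_le_ofReal_iff (by have := Real.sqrt_nonneg (r ^ 2 - ‖x‖ ^ 2); linarith)] at this
  linarith

theorem result (n : ℕ) (K : Set (E n)) (hK : IsCompact K) (R : ℝ) (R0 : 0 < R)
    (hR : volume (closedBall (0 : E n) R) = volume K) (u : ℕ → E n) (hu : ∀ i, ‖u i‖ = 1)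
    (φ : ℕ → ℕ) (h : Tendsto (fun j => hausdorffEDist (It u K (φ j)) (closedBall 0 R)) atTop (𝓝 0)) :
    Tendsto (fun i => hausdorffEDist (It u K i) (closedBall 0 R)) atTop (𝓝 0) := by
  have big (i) : ∃ B, MeasurableSet B ∧ B ⊆ It u K i ∧ volume B = volume K := by
    induction i with
    | zero => exact ⟨K, hK.measurableSet, le_rfl, rfl⟩
    | succ i ih =>
      obtain ⟨B, a, b, c⟩ := ih
      exact c ▸ step (hu i) a b
  refine ENNReal.tendsto_atTop_zero.2 fun e e0 => ?_
  obtain ⟨d, d0, de⟩ : ∃ d : ℝ, (0 < d ∧ d < R) ∧ ENNReal.ofReal d ≤ e := by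
    obtain ⟨d, -, a, b⟩ := lt_iff_exists_real_btwn.1 (lt_min e0 (ofReal_pos.2 R0))
    exact ⟨d, ⟨ofReal_pos.1 a, (ofReal_lt_ofReal_iff R0).1 (lt_min_iff.1 b).2⟩, (lt_min_iff.1 b).1.le⟩
  have c : Tendsto (fun r => volume (cthickening r (closedBall (0 : E n) R))) (𝓝[>] 0) _ :=
    (tendsto_measure_cthickening_of_isCompact (μ := volume) (isCompact_closedBall 0 R)).mono_left nhdsWithin_le_nhds
  have lt : volume (closedBall (0 : E n) R) < volume (closedBall (0 : E n) R) + volume (ball (0 : E n) (d / 2)) :=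
    lt_add_right measure_closedBall_lt_top.ne (measure_ball_pos _ _ (by linarith [d0.1])).ne'
  obtain ⟨r, ⟨a, b⟩, r0⟩ := (((c.eventually_lt_const lt).and (mem_nhdsWithin_of_mem_nhds
    (gt_mem_nhds d0.1))).and self_mem_nhdsWithin).exists
  have r0 : 0 < r := r0
  rw [cthickening_closedBall r0.le R0.le] at a
  obtain ⟨j, hj⟩ := (h.eventually_lt_const (ofReal_pos.2 r0)).exists
  have sub (i) (hi : φ j ≤ i) : It u K i ⊆ closedBall 0 (r + R) := by
    induction i, hi using Nat.le_induction with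
    | base =>
      intro x hx
      obtain ⟨y, p, q⟩ := exists_edist_lt_of_hausdorffEDist_lt hx hj
      rw [edist_lt_ofReal] at q
      rw [mem_closedBall] at *
      linarith [dist_triangle x y 0]
    | succ i _ ih => exact inb (hu i) ih
  refine ⟨φ j, fun i hi => le_trans (hausdorffEDist_le_of_mem_edist (fun x hx => ?_) fun x hx => ?_) de⟩
  · have := sub i hi hx
    rw [← cthickening_closedBall r0.le R0.le, (isCompact_closedBall 0 R).cthickening_eq_biUnion_closedBall r0.le] at this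
    obtain ⟨y, p, q⟩ := mem_iUnion₂.1 this
    exact ⟨y, p, (edist_le_ofReal d0.1.le).2 ((mem_closedBall.1 q).trans b.le)⟩
  · by_contra! H
    obtain ⟨B, m, p, q⟩ := big i
    have x0 := mem_closedBall_zero_iff.1 hx
    have s0 : 0 ≤ d / 2 / R := by have := d0.1; positivity
    have s1 : d / 2 / R * R = d / 2 := by field_simp
    have s2 : d / 2 / R ≤ 1 := by rw [div_le_one R0]; linarith [d0.1, d0.2]
    have dj : Disjoint B (ball ((1 - d / 2 / R) • x) (d / 2)) := disjoint_left.2 fun y hy hb => by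
      refine (H y (p hy)).not_ge ((edist_le_ofReal d0.1.le).2 ?_)
      have : dist x ((1 - d / 2 / R) • x) ≤ d / 2 := by
        rw [dist_eq_norm, sub_smul, one_smul, _root_.sub_sub_cancel, norm_smul, Real.norm_of_nonneg s0]
        nlinarith
      linarith [dist_triangle_right x y ((1 - d / 2 / R) • x), mem_ball.1 hb]
    have := measure_mono (μ := volume) (union_subset (p.trans (sub i hi)) (ball_subset_closedBall.trans
      (closedBall_subset_closedBall' (x := (1 - d / 2 / R) • x) (ε₁ := d / 2) (by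
        rw [dist_zero_right, norm_smul, Real.norm_of_nonneg (by linarith)]; nlinarith))))
    rw [measure_union dj measurableSet_ball, q, ← hR, Measure.addHaar_ball_center] at this
    exact a.not_ge this

end Pool.Agent.Results.MP_c699aa_gt.Q1
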